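import Pool.Agent.X69.Ric.Pack

/-!
Cunningham chains of the second kind, of length at least three, without small prime factors. Limit points of the vectors of consecutive normalised gaps.
-/

set_option autoImplicit false

namespace Pool.Agent.Results.MP_39b545_nt.GapLimitVectors

open Filter MeasureTheory

/-- The sequence `n, 2 n - 1, 4 n - 3, ...` of length `k`, with the terms `2 ^ i (n - 1) + 1`. -/
def chain (k n : ℕ) : Fin k → ℕ := fun i => 2 ^ (i : ℕ) * (n - 1) + 1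

/-- `Many g A`: for some `c > 0` and all large `X`, the set `A` has at least `c X / (log X) ^ g` elements in `[1, X]`. -/
def Many (g : ℕ) (A : Set ℕ) : Prop :=
  ∃ c : ℝ, 0 < c ∧ ∀ᶠ X : ℕ in atTop, c * X / Real.log X ^ g ≤ ((A ∩ Set.Icc 1 X).ncard : ℝ)

/-- No prime factor of a component of `f n` is less than `n ^ δ`. -/
def Rough {g : ℕ} (f : ℕ → Fin g → ℕ) (δ : ℝ) (n : ℕ) : Prop :=
  ∀ i, ∀ p : ℕ, p.Prime → p ∣ f n i → (n : ℝ) ^ δ ≤ p

/-- The `n ≥ 1` such that all the components of `f n` have at most `r` prime factors, counted with multiplicity,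
none of them less than `n ^ (1 / r)`. -/
def Almost {g : ℕ} (f : ℕ → Fin g → ℕ) (r : ℕ) : Set ℕ :=
  {n | 1 ≤ n ∧ ∀ i, ArithmeticFunction.cardFactors (f n i) ≤ r ∧
    ∀ p : ℕ, p.Prime → p ∣ f n i → (n : ℝ) ^ (1 / (r : ℝ)) ≤ p}

/-- The vector of `m` consecutive normalised gaps `(a (k+i+1) - a (k+i)) / (log a (k+i)) ^ g`, `0 ≤ i < m`, of the
set `A = {a 0 < a 1 < ...}`. -/
noncomputable def gaps (g : ℕ) (A : Set ℕ) (m k : ℕ) : Fin m → ℝ := fun i =>
  ((Nat.nth (· ∈ A) (k + i + 1) : ℝ) - Nat.nth (· ∈ A) (k + i)) / Real.log (Nat.nth (· ∈ A) (k + i)) ^ g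

/-- The set of the limit points in `ℝ ^ m` of the vectors of `m` consecutive normalised gaps of `A`. -/
def LimitVectors (g : ℕ) (A : Set ℕ) (m : ℕ) : Set (Fin m → ℝ) := {t | MapClusterPt t atTop (gaps g A m)}

theorem result : ∀ k : ℕ, 3 ≤ k →
    (∀ A : Set ℕ, ∀ δ : ℝ, 0 < δ → (∀ n ∈ A, Rough (chain k) δ n) → Many k A →
      ∀ m : ℕ, 1 ≤ m → 0 < volume (LimitVectors k A m)) ∧
    ∃ r : ℕ, 1 ≤ r ∧ Many k (Almost (chain k) r) ∧ ∀ m : ℕ, 1 ≤ m → 0 < volume (LimitVectors k (Almost (chain k) r) m) := by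
  intro k hk
  refine Pool.Agent.X69.Ric.pack_gaps (by omega) (a := fun i : Fin k => (2 : ℤ) ^ (i : ℕ)) (b := fun i : Fin k => 1 - (2 : ℤ) ^ (i : ℕ))
    (f := chain k) (fun i => by positivity) ?_ ?_ ?_
  · intro i j hij h
    have h2 : (2 : ℤ) ^ (i : ℕ) = 2 ^ (j : ℕ) := by linarith
    exact hij (Fin.ext (Nat.pow_right_injective le_rfl (by exact_mod_cast h2)))
  · intro p hp
    have h1 : ¬ (p : ℤ) ∣ 1 := fun h => hp.one_lt.ne' (Nat.dvd_one.1 (by exact_mod_cast h))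
    refine ⟨1, fun i h => h1 ?_⟩
    have h2 : (2 : ℤ) ^ (i : ℕ) * 1 + (1 - 2 ^ (i : ℕ)) = 1 := by ring
    rwa [h2] at h
  · intro n hn i
    show ((2 ^ (i : ℕ) * (n - 1) + 1 : ℕ) : ℤ) = _
    rw [Nat.cast_add, Nat.cast_mul, Nat.cast_sub hn]
    push_cast
    ring

end Pool.Agent.Results.MP_39b545_nt.GapLimitVectors
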