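import Pool.Agent.X37.RW.Iso

/-!
# Cunningham orbits of the second kind: `k + 1` complete chains of length one near prescribed times

`a_j(p) = 2 ^ j * (p - 1) + 1`. For all `k ≥ 1` and `R` there is `C` such that for any times
`x_0 ≤ x_1 ≤ ... ≤ x_(8 k ^ 2)` there are `i_0 < ... < i_k` and `y_0 < ... < y_k`, more than `R` apart, with
`x_(i_j) ≤ y_j ≤ x_(i_j) + C`, such that for infinitely many primes `p` the primes among ALL numbers
`a_l(p)`, `0 ≤ l ≤ y_k - y_0 + R`, are exactly those with `l = y_j - y_0`, and `p` is none of the numbers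
`a_1(q), ..., a_R(q)` for any prime `q`. For `R ≥ 1` each of these `k + 1` primes is a complete
Cunningham chain of the second kind of exact length one.
-/

set_option autoImplicit false

namespace Pool.Agent.Results.MP_39b545_nt.IsolatedNearAnyTimes

open Pool.Agent.X37.RW

/-- `a_j(p)`, the `j`-th iterate of `x ↦ 2 x - 1` at `p ≥ 1` -/
def a (p j : ℕ) : ℕ := 2 ^ j * (p - 1) + 1

theorem result (k : ℕ) (hk : 1 ≤ k) (R : ℕ) : ∃ C : ℕ,
    ∀ x : Fin (8 * k ^ 2 + 1) → ℕ, Monotone x →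
    ∃ (i : Fin (k + 1) → Fin (8 * k ^ 2 + 1)) (y : Fin (k + 1) → ℕ), StrictMono i ∧
      (∀ j j', j < j' → y j + R < y j') ∧
      (∀ j, x (i j) ≤ y j ∧ y j ≤ x (i j) + C) ∧
      {p : ℕ | p.Prime ∧
        (∀ l, y 0 + l ≤ y (Fin.last k) + R → ((a p l).Prime ↔ ∃ j, y 0 + l = y j)) ∧
        ∀ l, 1 ≤ l → l ≤ R → ∀ q : ℕ, q.Prime → a q l ≠ p}.Infinite := by
  obtain ⟨C, hC⟩ := iso_points k hk R
  refine ⟨C, fun x hx => ?_⟩
  obtain ⟨i, y, h1, h2, h3, h4⟩ := hC _ _ fam_second x hx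
  refine ⟨i, y, h1, h2, h3, ?_⟩
  have hinj : Set.InjOn (fun n : ℕ => 2 ^ (y 0 + R) * n + 1)
      {n : ℕ | ∀ l, y 0 ≤ l → l ≤ y (Fin.last k) + 2 * R →
        (((fun i => 2 ^ i) l * n + (fun _ => 1) l).Prime ↔ ∃ j, l = y j + R)} := by
    intro u _ v _ huv
    simp only at huv
    have h5 : 2 ^ (y 0 + R) * u = 2 ^ (y 0 + R) * v := by omega
    exact Nat.eq_of_mul_eq_mul_left (by positivity) h5
  have hy0 : y 0 ≤ y (Fin.last k) := by
    rcases (Fin.zero_le (Fin.last k)).lt_or_eq with h | h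
    · have := h2 _ _ h
      omega
    · rw [h]
  refine (h4.image hinj).mono ?_
  rintro _ ⟨n, hn, rfl⟩
  have hn' : ∀ l, y 0 ≤ l → l ≤ y (Fin.last k) + 2 * R →
      ((2 ^ l * n + 1).Prime ↔ ∃ j, l = y j + R) := hn
  refine ⟨(hn' (y 0 + R) (by omega) (by omega)).2 ⟨0, rfl⟩, ?_, ?_⟩
  · intro l hl
    have e2 : a (2 ^ (y 0 + R) * n + 1) l = 2 ^ (y 0 + R + l) * n + 1 := by
      unfold a
      rw [Nat.add_sub_cancel, pow_add _ (y 0 + R) l]
      ring
    simp only
    rw [e2, hn' (y 0 + R + l) (by omega) (by omega)]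
    constructor
    · rintro ⟨j, hj⟩
      exact ⟨j, by omega⟩
    · rintro ⟨j, hj⟩
      exact ⟨j, by omega⟩
  · intro l hl1 hl2 q hq hqe
    unfold a at hqe
    have h5 : 2 ^ (y 0 + R) * n = 2 ^ l * (2 ^ (y 0 + R - l) * n) := by
      rw [← mul_assoc, ← pow_add]
      congr 2
      omega
    have h6 : q - 1 = 2 ^ (y 0 + R - l) * n := by
      have h7 : 2 ^ l * (q - 1) = 2 ^ l * (2 ^ (y 0 + R - l) * n) := by
        rw [← h5]
        simp only at hqe
        omega
      exact Nat.eq_of_mul_eq_mul_left (by positivity) h7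
    have h8 : q = 2 ^ (y 0 + R - l) * n + 1 := by
      have := hq.one_lt
      omega
    rw [h8] at hq
    obtain ⟨j, hj⟩ := (hn' (y 0 + R - l) (by omega) (by omega)).1 hq
    rcases (Fin.zero_le j).lt_or_eq with h | h
    · have := h2 _ _ h
      omega
    · subst h
      omega

end Pool.Agent.Results.MP_39b545_nt.IsolatedNearAnyTimes
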