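import Pool.Agent.X119.Dig
import Pool.Agent.Y816.PD.Chain

set_option autoImplicit false

/-!
# Chains of almost primes of exact length with restricted digits, second kind

For every `k ≥ 1` there are `c₀ > 0` and `r₀` such that for all `r ≥ r₀`, all bases `b` and all large `K` the
following holds for ALL choices of sets `A 0, ..., A (K - 1)` of digits with `∏ |A i| ≥ exp (- c₀ K) b ^ K`: the
integers `n < b ^ K` whose `i`-th digit belongs to `A i` for all `i < K`, such that the first `k` terms of the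
Cunningham sequence of the second kind of `n` have at most `r` prime factors each, all larger than
`n ^ (1 / r)`, while the next term is composite, have the expected order `∏ |A i| / K ^ k` (if the last digit
can be chosen such that the `k` terms are coprime to the base), and at most `C ∏ |A i| / K ^ k` of the integers
with these digits start a Cunningham chain of length at least `k`.
-/

namespace Pool.Agent.Results.MP_39b545_nt.PrescribedDigits

open Finset Filter
open Pool.Agent.Y816.PD (NA ND)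

/-- The terms of the Cunningham sequence of the second kind. -/
def c (j n : ℕ) : ℕ := 2 ^ j * (n - 1) + 1

/-- The `n` such that `c 0 n, ..., c (k - 1) n` have at most `r` prime factors each (with multiplicity), all of
them larger than `n ^ (1 / r)`, and `c k n` is composite. -/
def Almost (k r : ℕ) : Set ℕ :=
  {n | ((∀ j < k, ∀ p : ℕ, p.Prime → p ∣ c j n → (n : ℝ) ^ (1 / (r : ℝ)) < (p : ℝ)) ∧
    ∀ j < k, (c j n).primeFactorsList.length ≤ r) ∧ 1 < c k n ∧ ¬ (c k n).Prime}

/-- The `n` such that `c 0 n, ..., c (k - 1) n` are primes; they contain the starting points of the chains of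
exact length `k`. -/
def S (k : ℕ) : Set ℕ := {n | ∀ j < k, (c j n).Prime}

lemma c_ge (j n : ℕ) : n ≤ c j n := by
  unfold c
  have h := Nat.one_le_two_pow (n := j)
  have h2 : 1 * (n - 1) ≤ 2 ^ j * (n - 1) := Nat.mul_le_mul_right _ h
  omega

/-- **Restricted digits.** -/
theorem result (k : ℕ) (hk : 1 ≤ k) :
    ∃ c₀ : ℝ, 0 < c₀ ∧ ∃ r₀ : ℕ, 2 ≤ r₀ ∧ ∀ r : ℕ, r₀ ≤ r → ∀ b : ℕ, 2 ≤ b → ∃ κ C : ℝ, 0 < κ ∧ 0 < C ∧
      ∀ᶠ K : ℕ in atTop, ∀ A : ℕ → Finset ℕ, (∀ i < K, A i ⊆ range b) →
        (b : ℝ) ^ K ≤ Real.exp (c₀ * K) * NA K A →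
        ((∃ d ∈ A 0, ∀ j < k, (c j (d + b)).Coprime b) →
          κ * NA K A / (K : ℝ) ^ k ≤ ND b K A (Almost k r)) ∧
        (ND b K A (S k) : ℝ) ≤ C * NA K A / (K : ℝ) ^ k := by
  obtain ⟨c₀, hc, r₀, hr₀, h⟩ := Pool.Agent.Y816.PD.exact_chain c (Or.inr fun _ _ => rfl) k hk
  refine ⟨c₀, hc, r₀, hr₀, fun r hr b hb => ?_⟩
  obtain ⟨κ, C, hκ, hC, h1⟩ := h r hr b hb
  refine ⟨κ, C, hκ, hC, ?_⟩
  filter_upwards [h1] with K hK A hA hprod
  obtain ⟨h2, h3⟩ := hK A hA hprod
  refine ⟨h2, (Pool.Agent.X119.Dig.nd_mono b K A ?_).trans h3⟩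
  intro n hn j hj p hp hd
  have h0 : n.Prime := by
    have h4 : (c 0 n).Prime := hn 0 hk
    have h5 : c 0 n = 2 ^ 0 * (n - 1) + 1 := rfl
    rcases Nat.eq_zero_or_pos n with rfl | h6
    · rw [h5] at h4
      exact absurd h4 (by norm_num)
    · have h7 : c 0 n = n := by rw [h5]; omega
      rwa [h7] at h4
  exact Pool.Agent.X119.Dig.prime_rough (hr₀.trans hr) h0.two_le (hn j hj) (c_ge j n) hp hd

end Pool.Agent.Results.MP_39b545_nt.PrescribedDigits
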